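import Pool.Agent.TH160.Tow.Main
import Pool.Agent.H137R5.TowFree

set_option autoImplicit false

/-!
# Towers of height three whose base and middle entry vary together

The number of the problem is `√2 ^ (√2 ^ √2) = (n ^ (1 / 2)) ^ (n ^ (√2 / 2))` for `n = 2`.  Here the
integer `n` varies, so that the base *and* the middle entry of the tower vary: for 100 percent of the
positive integers `n` the number `√n ^ (√n ^ √2)`, and more generally `(b n ^ s) ^ (κ n ^ c)` for
real `b > 0`, `κ ≠ 0`, `s ≠ 0` and any real irrational `c`, is transcendental and even free; the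
bound is uniform in `b`, `κ`, `s`, `c`.

Proof.  The logarithm of the tower is the product of the function `n ↦ κ n ^ c` and the function
`n ↦ log b + s log n`.  A set of integers of positive density contains the `2 ^ 41` numbers
`a ∏ (p_i or q_i)` for 41 pairs of primes (helper297).  Let `t_i = (q_i / p_i) ^ c`.  By the theorem of
Gelfond and Schneider (if `c` is algebraic) or the six exponentials theorem (if it is not) `t_i` is
transcendental for at least 39 of the pairs; keep these.  The values `f` of
the product on the cube satisfy `f(ij) - t_i f(j) - t_j f(i) + t_i t_j f = 0` for all pairs `i`, `j` of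
directions.  If all the values are linear forms in logarithms, the hyperplane case of the linear
subgroup theorem of Waldschmidt and Roy bounds the rank of these relations; the coefficients
`1, t_i, t_j, t_i t_j` have rank at least three, and if the rank is three for three pairs `(0, 1)`,
`(0, 2)`, `(1, 2)` then one combination of the relations is proportional to an algebraic vector for all
three pairs, which makes one of the `t_i` algebraic.
-/

namespace Pool.Agent.TH160.Old.BaseAndMiddle

open Pool.Agent.H137R5.Tow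

/-- `t` is *free*: its logarithm is not of the form `γ + β₁ l₁ + ... + βₘ lₘ` with `γ`, the `βᵢ`
and the exponentials of the `lᵢ` algebraic (complex) numbers, i.e. `t` is not of the form
`e ^ γ * α₁ ^ β₁ * ... * αₘ ^ βₘ`. -/
def Free (t : ℝ) : Prop :=
  ∀ (m : ℕ) (γ : ℂ) (β l : Fin m → ℂ), IsAlgebraic ℚ γ → (∀ i, IsAlgebraic ℚ (β i)) →
    (∀ i, IsAlgebraic ℚ (Complex.exp (l i))) → ((Real.log t : ℝ) : ℂ) ≠ γ + ∑ i, β i * l i

open Classical in
/-- For every `ε > 0` there is `N₀` such that for all `N ≥ N₀` and all real `b > 0`, `κ ≠ 0`, `s ≠ 0`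
and all real irrational `c` all but at most `ε N` of the numbers
`(b n ^ s) ^ (κ n ^ c)`, `n ≤ N`, are free; free positive numbers `t` are transcendental, and so are
`e ^ γ * t ^ δ` for algebraic `γ` and algebraic `δ ≠ 0`. -/
theorem result :
    (∀ ε : ℝ, 0 < ε → ∃ N₀ : ℕ, ∀ N ≥ N₀, ∀ b κ s c : ℝ, 0 < b → κ ≠ 0 → s ≠ 0 →
      Irrational c → (((Finset.Icc 1 N).filter
        (fun n : ℕ => ¬ Free ((b * (n : ℝ) ^ s) ^ (κ * (n : ℝ) ^ c)))).card : ℝ) ≤ ε * N) ∧
    (∀ t : ℝ, 0 < t → Free t → Transcendental ℚ t ∧
      ∀ γ δ : ℂ, IsAlgebraic ℚ γ → IsAlgebraic ℚ δ → δ ≠ 0 →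
        Transcendental ℚ (Complex.exp (γ + δ * ((Real.log t : ℝ) : ℂ)))) := by
  refine ⟨?_, ?_⟩
  · intro ε hε
    obtain ⟨N₀, hN₀⟩ := Pool.Agent.TH160.Tow.selfCount ε hε
    refine ⟨N₀, fun N hN b κ s c hb hκ hs hci => le_trans ?_ (hN₀ N hN b κ s c hb hκ hs hci)⟩
    have : ((Finset.Icc 1 N).filter (fun n : ℕ =>
        ¬ Free ((b * (n : ℝ) ^ s) ^ (κ * (n : ℝ) ^ c)))).card ≤
        ((Finset.Icc 1 N).filter (fun n : ℕ =>
        Bad ((b * (n : ℝ) ^ s) ^ (κ * (n : ℝ) ^ c)))).card := by
      apply Finset.card_le_card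
      intro n hn
      rw [Finset.mem_filter] at hn ⊢
      exact ⟨hn.1, bad_of_not_free hn.2⟩
    exact_mod_cast this
  · intro t ht hf
    exact ⟨free_tr ht hf, fun γ δ hγ hδ hδ0 => free_pow hf γ δ hγ hδ hδ0⟩

end Pool.Agent.TH160.Old.BaseAndMiddle
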